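import Pool.Agent.X33.Z4722.C00
import Pool.Agent.X33.Z4722.C01
import Pool.Agent.X33.Z4722.C02
import Pool.Agent.X33.Z4722.C03
import Pool.Agent.X33.Z4722.C04
import Pool.Agent.X33.Z4722.C05
import Pool.Agent.X33.Z4722.C06
import Pool.Agent.X33.Z4722.C07
import Pool.Agent.X33.Z4722.C08
import Pool.Agent.X33.Z4722.C09
import Pool.Agent.X33.Z4722.C10
import Pool.Agent.X33.Z4722.C11
import Pool.Agent.X33.Z4722.C12
import Pool.Agent.X33.Z4722.C13
import Pool.Agent.X33.Z4722.C14
import Pool.Agent.X33.Z4722.C15

set_option autoImplicit false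

/-!
# A counterexample: `n = 4722`

For no integer `k` with `0 < k < 4722` is `(k + 1) ^ φ(4722 - k) + k` a prime number. The kernel
checks for each `k` either a proper divisor of this number or that it fails the Fermat test with
base `2` (771 of the numbers, with up to 38052 binary digits).
-/

namespace Pool.Agent.Results.MP_aa6c6a_nt.Counterexample4722

open Pool.Agent.X33 Pool.Agent.X33.Z4722

/-- **Theorem.** There is an integer `n > 1` (namely `n = 4722`) such that
`(k + 1) ^ φ(n - k) + k` is not a prime number for any integer `k` with `0 < k < n`. -/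
theorem result : ∃ n : ℕ, 1 < n ∧ ∀ k : ℕ, 0 < k → k < n →
    ¬ ((k + 1) ^ (Nat.totient (n - k)) + k).Prime := by
  refine ⟨4722, by norm_num, fun k hk0 hk => ?_⟩
  change ¬ (num 4722 k).Prime
  by_cases h228 : k < 228
  · exact rng_1 k (by omega) h228
  by_cases h380 : k < 380
  · exact rng_228 k (by omega) h380
  by_cases h538 : k < 538
  · exact rng_380 k (by omega) h538
  by_cases h668 : k < 668
  · exact rng_538 k (by omega) h668
  by_cases h791 : k < 791
  · exact rng_668 k (by omega) h791
  by_cases h922 : k < 922
  · exact rng_791 k (by omega) h922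
  by_cases h1070 : k < 1070
  · exact rng_922 k (by omega) h1070
  by_cases h1149 : k < 1149
  · exact rng_1070 k (by omega) h1149
  by_cases h1338 : k < 1338
  · exact rng_1149 k (by omega) h1338
  by_cases h1602 : k < 1602
  · exact rng_1338 k (by omega) h1602
  by_cases h1768 : k < 1768
  · exact rng_1602 k (by omega) h1768
  by_cases h2034 : k < 2034
  · exact rng_1768 k (by omega) h2034
  by_cases h2294 : k < 2294
  · exact rng_2034 k (by omega) h2294
  by_cases h2652 : k < 2652
  · exact rng_2294 k (by omega) h2652
  by_cases h3219 : k < 3219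
  · exact rng_2652 k (by omega) h3219
  exact rng_3219 k (by omega) hk

end Pool.Agent.Results.MP_aa6c6a_nt.Counterexample4722
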